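import Mathlib
import Pool.Agent.Y268.D3.Stm
import Pool.Agent.H71R2.Kad.Block
import Pool.Agent.H777R2.Kad.Dix
import Pool.Agent.H294R2.Kad2.Dix2
import Pool.Agent.H778R2.Kad3.Vmap

/-!
Job 5504 (D3-MID): the bilinear block inequality, for matrices of blocks.
-/

set_option autoImplicit false

open scoped ComplexOrder InnerProductSpace ComplexConjugate Topology
open Finset Filter

noncomputable section

namespace Y333.D3

open H759R2.Kad H711R2.KG Y268.D3 Block

section tens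

variable {B : Type} [CStarAlgebra B] [PartialOrder B] [StarOrderedRing B]

omit [PartialOrder B] [StarOrderedRing B] in
theorem dgl_one (β : Type) [Fintype β] [DecidableEq β] :
    dgl B β (1 : B) = (1 : CStarMatrix β β B) := by
  ext i j
  rw [dgl_apply, CStarMatrix.one_apply]

omit [PartialOrder B] [StarOrderedRing B] in
theorem star_tens_mul {β : Type} [Fintype β] [DecidableEq β] {s : Matrix β β ℂ}
    (hs : s ∈ unitary (Matrix β β ℂ)) (h : B) :
    star (tens s h) * tens s h = dgl B β (star h * h) := by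
  have e1 : star s * s = 1 := (Unitary.mem_iff.mp hs).1
  ext i j
  rw [CStarMatrix.mul_apply, dgl_apply]
  have h1 : ∀ k, (star (tens s h)) i k * (tens s h) k j =
      (star s i k * s k j) • (star h * h) := by
    intro k
    rw [CStarMatrix.star_apply]
    change star (s k i • h) * (s k j • h) = (star s i k * s k j) • (star h * h)
    rw [star_smul, smul_mul_smul_comm, Matrix.star_apply]
  rw [Finset.sum_congr rfl fun k _ => h1 k, ← Finset.sum_smul]
  have h2 : ∑ k, star s i k * s k j = (star s * s) i j := (Matrix.mul_apply).symm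
  rw [h2, e1, Matrix.one_apply]
  by_cases hij : i = j
  · rw [if_pos hij, if_pos hij, one_smul]
  · rw [if_neg hij, if_neg hij, zero_smul]

/-- norm of the image of an elementary tensor -/
theorem amp_tens_norm {K : Type} [NormedAddCommGroup K] [InnerProductSpace ℂ K]
    (w : B →ₗ[ℂ] (K →L[ℂ] K)) {ι : Type} [Fintype ι] [DecidableEq ι]
    {s : Matrix ι ι ℂ} (hs : s ∈ unitary (Matrix ι ι ℂ)) (h : B) (v : HH ι K) :
    ‖amp w ι (tens s h) v‖ ^ 2 = ∑ c, ‖w h (v c)‖ ^ 2 := by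
  have h1 : ∀ i, amp w ι (tens s h) v i = ∑ j, s i j • w h (v j) := by
    intro i
    rw [amp_apply]
    refine Finset.sum_congr rfl fun j _ => ?_
    have : tens s h i j = s i j • h := rfl
    rw [this, map_smul]
    rfl
  rw [PiLp.norm_sq_eq_of_L2, ← H294R2.Kad2.sum_scal hs (fun j => w h (v j))]
  exact Finset.sum_congr rfl fun i _ => by rw [h1 i]

end tens

/-- the index type of the averaging -/
abbrev AI (β : Type) (n : ℕ) : Type := (Equiv.Perm β × (β → ℤˣ)) × Fin n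

section avg

variable {B : Type} [CStarAlgebra B] [PartialOrder B] [StarOrderedRing B]
  {β : Type} [Fintype β] [DecidableEq β] {n : ℕ}

/-- the averaging family -/
def ut (g : Fin n → B) (k : AI β n) : CStarMatrix β β B := tens (spm k.1.1 k.1.2) (g k.2)

/-- number of signed permutations -/
def c0 (β : Type) [Fintype β] [DecidableEq β] : ℝ :=
  (Fintype.card (Equiv.Perm β) : ℝ) * (Fintype.card (β → ℤˣ) : ℝ)

theorem c0_pos (β : Type) [Fintype β] [DecidableEq β] : 0 < c0 β := by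
  unfold c0
  have h1 : 0 < Fintype.card (Equiv.Perm β) := Fintype.card_pos
  have h2 : 0 < Fintype.card (β → ℤˣ) := Fintype.card_pos
  positivity

theorem c0_card (β : Type) [Fintype β] [DecidableEq β] :
    (Fintype.card (Equiv.Perm β × (β → ℤˣ)) : ℝ) = c0 β := by
  unfold c0
  rw [Fintype.card_prod]
  push_cast
  rfl

omit [PartialOrder B] [StarOrderedRing B] in
theorem sum_star_ut (g : Fin n → B) (hg : ∑ s, star (g s) * g s = 1) :
    ∑ k : AI β n, star (ut g k) * ut g k = ((c0 β : ℝ) : ℂ) • (1 : CStarMatrix β β B) := by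
  have h1 : ∀ k : AI β n, star (ut g k) * ut g k = dgl B β (star (g k.2) * g k.2) := fun k =>
    star_tens_mul (spm_mem _ _) _
  rw [Finset.sum_congr rfl fun k _ => h1 k, Fintype.sum_prod_type]
  have h2 : ∀ x : Equiv.Perm β × (β → ℤˣ), ∑ y : Fin n, dgl B β (star (g y) * g y) = 1 := by
    intro x
    rw [← map_sum, hg, dgl_one]
  rw [Finset.sum_congr rfl fun x _ => h2 x, Finset.sum_const, Finset.card_univ, ← c0_card,
    ← Nat.cast_smul_eq_nsmul ℂ]
  push_cast
  rfl

omit [PartialOrder B] [StarOrderedRing B] in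
theorem sum_ut_conj [Nonempty β] (g : Fin n → B) (p : CStarMatrix β β B) :
    ∑ k : AI β n, ut g k * p * star (ut g k) =
      ((c0 β : ℝ) : ℂ) • dgl B β (∑ s, g s * avd p * star (g s)) := by
  rw [Fintype.sum_prod_type, Finset.sum_comm]
  have h1 : ∀ y : Fin n, ∑ x : Equiv.Perm β × (β → ℤˣ), ut g (x, y) * p * star (ut g (x, y)) =
      ((c0 β : ℝ) : ℂ) • dgl B β (g y * avd p * star (g y)) := by
    intro y
    rw [Fintype.sum_prod_type]
    have h2 := sum_conj (g y) p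
    unfold c0
    push_cast
    exact h2
  rw [Finset.sum_congr rfl fun y _ => h1 y, ← Finset.smul_sum, map_sum]

theorem sum_amp_ut {K : Type} [NormedAddCommGroup K] [InnerProductSpace ℂ K]
    (w : B →ₗ[ℂ] (K →L[ℂ] K)) (g : Fin n → B) (v : HH β K) :
    ∑ k : AI β n, ‖amp w β (ut g k) v‖ ^ 2 = c0 β * ∑ c, ∑ s, ‖w (g s) (v c)‖ ^ 2 := by
  have h1 : ∀ k : AI β n, ‖amp w β (ut g k) v‖ ^ 2 = ∑ c, ‖w (g k.2) (v c)‖ ^ 2 := fun k =>
    amp_tens_norm w (spm_mem _ _) _ _
  have h2 : ∀ x : Equiv.Perm β × (β → ℤˣ), ∑ y : Fin n, ∑ c, ‖w (g y) (v c)‖ ^ 2 =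
      ∑ c, ∑ s, ‖w (g s) (v c)‖ ^ 2 := fun x => Finset.sum_comm
  rw [Finset.sum_congr rfl fun k _ => h1 k, Fintype.sum_prod_type,
    Finset.sum_congr rfl fun x _ => h2 x, Finset.sum_const,
    Finset.card_univ, nsmul_eq_mul, c0_card]

end avg

section main

variable {B : Type} [CStarAlgebra B] [PartialOrder B] [StarOrderedRing B] {τ : B →ₗ[ℂ] ℂ}
  {K : Type} [NormedAddCommGroup K] [InnerProductSpace ℂ K] [CompleteSpace K]

omit [CompleteSpace K] in
theorem qf_re (w : B →ₗ[ℂ] (K →L[ℂ] K)) {n : ℕ} (g : Fin n → B) (v : K) :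
    (qf w g v v).re = ∑ s, ‖w (g s) v‖ ^ 2 := by
  unfold qf
  rw [Complex.re_sum]
  refine Finset.sum_congr rfl fun s _ => ?_
  rw [inner_self_eq_norm_sq_to_K]
  norm_cast

/-- the inequality with an error term -/
theorem mid_stage (hrow : S_row) (h1 : St_gt.{0, 0}) (hτ : IsTracialState τ)
    {w : B →ₗ[ℂ] (K →L[ℂ] K)} (hw : IsHom w) {q₁ q₂ : Form K} {C : ℝ} (hq₂ : IsForm q₂ C)
    (hd1 : DixForm τ (vmap w) q₁) (hd2 : DixForm τ w q₂)
    (α β : Type) [Fintype α] [DecidableEq α] [Nonempty α] [Fintype β]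
    [DecidableEq β] [Nonempty β] (γ : ℝ) (hγ : 0 ≤ γ)
    (hamp : ∀ Y : CStarMatrix β β B, ‖amp w β Y‖ ≤ γ * ‖Y‖)
    (X : CStarMatrix (α × β) (α × β) B) (ξ η : HH (α × β) K) (ε : ℝ) (hε : 0 < ε) :
    ‖⟪amp w (α × β) X ξ, η⟫_ℂ‖ ^ 2 ≤
        18 * γ ^ 2 * (‖X‖ ^ 2 + 1 / (Fintype.card β : ℝ) *
          (tr τ (α × β) (star X * X)).re + ε) *
          (qa q₂ ξ ξ).re * ((qa q₁ η η).re + (Fintype.card (α × β) : ℝ) * ε) := by
  classical
  have hwb : IsHom (amp w β) := H294R2.Kad2.amp_isHom hw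
  obtain ⟨a0⟩ := ‹Nonempty α›
  set Q : ℝ := (qa q₂ ξ ξ).re with hQ
  have hQs : Q = ∑ p, (q₂ (ξ p) (ξ p)).re := by
    rw [hQ]
    unfold qa
    rw [Complex.re_sum]
  have hQ0 : 0 ≤ Q := by
    rw [hQs]
    exact Finset.sum_nonneg fun p _ => hq₂.pos _
  have hQsec : ∑ j, (qa q₂ (sec j ξ) (sec j ξ)).re = Q := by
    rw [hQs, Fintype.sum_prod_type]
    refine Finset.sum_congr rfl fun j _ => ?_
    unfold qa
    rw [Complex.re_sum]
    rfl
  set Mc : ℝ := √(6 * γ ^ 2 * Q) with hMc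
  have hM0 : 0 ≤ Mc := Real.sqrt_nonneg _
  have hM2 : Mc ^ 2 = 6 * γ ^ 2 * Q := Real.sq_sqrt (by positivity)
  -- the row bound
  have hrowb : ∀ Z : CStarMatrix (α × β) (α × β) B, ‖rowMap w ξ a0 Z‖ ≤ Mc * ‖Z‖ := by
    intro Z
    have h := hrow B τ hτ K w hw q₂ C hq₂ hd2 β γ hγ hamp α (fun j => blk Z a0 j)
      (fun j => sec j ξ)
    rw [hQsec] at h
    have h5 : ‖rowMap w ξ a0 Z‖ ^ 2 ≤ (Mc * ‖Z‖) ^ 2 := by
      rw [rowMap_apply, mul_pow, hM2]
      refine h.trans ?_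
      have h6 := row_norm Z a0
      have h7 : 0 ≤ 6 * γ ^ 2 := by positivity
      have h8 : 6 * γ ^ 2 * ‖∑ j, blk Z a0 j * star (blk Z a0 j)‖ ≤
          6 * γ ^ 2 * ‖Z‖ ^ 2 := mul_le_mul_of_nonneg_left h6 h7
      calc 6 * γ ^ 2 * ‖∑ j, blk Z a0 j * star (blk Z a0 j)‖ * Q
          ≤ 6 * γ ^ 2 * ‖Z‖ ^ 2 * Q := mul_le_mul_of_nonneg_right h8 hQ0
        _ = _ := by ring
    exact (pow_le_pow_iff_left₀ (norm_nonneg _) (by positivity) two_ne_zero).mp h5
  -- the averaged block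
  set p : CStarMatrix β β B := ∑ i, blk (X * star X) i i with hp
  set trX : ℝ := (tr τ (α × β) (star X * X)).re with htr
  set l : ℝ := (Fintype.card β : ℝ) with hl
  have hl0 : 0 < l := by
    rw [hl]
    exact_mod_cast Fintype.card_pos
  have htrX : tr τ (α × β) (star X * X) = ∑ q : α × β, ∑ r : α × β,
      τ (star (X r q) * X r q) := by
    rw [tr_apply]
    refine Finset.sum_congr rfl fun q _ => ?_
    rw [CStarMatrix.mul_apply, map_sum]
    exact Finset.sum_congr rfl fun r _ => by rw [CStarMatrix.star_apply]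
  have htrX2 : tr τ (α × β) (X * star X) = tr τ (α × β) (star X * X) := by
    rw [htrX, tr_apply, Finset.sum_comm]
    refine Finset.sum_congr rfl fun q _ => ?_
    rw [CStarMatrix.mul_apply, map_sum]
    refine Finset.sum_congr rfl fun r _ => ?_
    rw [CStarMatrix.star_apply, hτ.comm]
  have htr0 : 0 ≤ tr τ (α × β) (star X * X) := by
    rw [htrX]
    exact Finset.sum_nonneg fun q _ => Finset.sum_nonneg fun r _ => hτ.pos _
  have htr0' : 0 ≤ trX := (Complex.nonneg_iff.mp htr0).1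
  have htrc : tr τ (α × β) (star X * X) = (trX : ℂ) := by
    rw [htr]
    exact Complex.ext rfl (by simpa using (Complex.nonneg_iff.mp htr0).2.symm)
  have hntr : τ (avd p) = ((trX / l : ℝ) : ℂ) := by
    have e1 : tr τ β p = tr τ (α × β) (X * star X) := by
      rw [hp, map_sum, tr_apply, Fintype.sum_prod_type]
      refine Finset.sum_congr rfl fun i _ => ?_
      rw [tr_apply]
      rfl
    rw [tau_avd, ntr, LinearMap.smul_apply, e1, htrX2, htrc, smul_eq_mul]
    push_cast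
    rw [hl]
    push_cast
    ring
  -- the family
  obtain ⟨n, g, hgp, hgq, hgd⟩ := hd1 (Finset.univ.image fun p => η p) {avd p} ε hε
  have hgd' := hgd (avd p) (Finset.mem_singleton_self _)
  set c : ℝ := c0 β with hc
  have hc0 : 0 < c := c0_pos β
  -- norm of the sum of conjugates
  have hsum : ‖∑ k : AI β n, ut g k * p * star (ut g k)‖ ≤ c * (trX / l + ε) := by
    rw [sum_ut_conj, norm_smul, Complex.norm_real, Real.norm_of_nonneg hc0.le]
    refine mul_le_mul_of_nonneg_left ?_ hc0.le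
    refine (norm_dgl_le β _).trans ?_
    have e2 : ‖algebraMap ℂ B (τ (avd p))‖ ≤ trX / l := by
      rw [hntr, norm_algebraMap]
      have e3 : ‖((trX / l : ℝ) : ℂ)‖ = trX / l := by
        rw [Complex.norm_real, Real.norm_of_nonneg (by positivity)]
      rw [e3]
      have e4 := norm_one_le B
      have e5 : 0 ≤ trX / l := by positivity
      nlinarith
    calc ‖∑ s, g s * avd p * star (g s)‖ = ‖(∑ s, g s * avd p * star (g s) -
          algebraMap ℂ B (τ (avd p))) + algebraMap ℂ B (τ (avd p))‖ := by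
          rw [sub_add_cancel]
      _ ≤ _ + _ := norm_add_le _ _
      _ ≤ ε + trX / l := add_le_add hgd' e2
      _ = _ := by ring
  set x : α × AI β n → CStarMatrix (α × β) (α × β) B :=
    fun q => put a0 q.1 (ut g q.2) * X with hx
  have hcol : ∑ q, star (x q) * x q = ((c : ℝ) : ℂ) • (star X * X) := by
    have e1 : ∀ q, star (x q) * x q = star X * put q.1 q.1 (star (ut g q.2) * ut g q.2) * X := by
      intro q
      rw [hx]
      simp only [star_mul, put_star]
      have e2 : star X * put q.1 a0 (star (ut g q.2)) *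
          (put a0 q.1 (ut g q.2) * X) =
          star X * (put q.1 a0 (star (ut g q.2)) *
            put a0 q.1 (ut g q.2)) * X := by
        simp only [mul_assoc]
      rw [e2, put_mul_put]
    simp only [e1]
    rw [Fintype.sum_prod_type]
    have e3 : ∀ i : α, ∑ k : AI β n, star X * put i i (star (ut g k) * ut g k) * X =
        ((c : ℝ) : ℂ) • (star X * put i i (1 : CStarMatrix β β B) * X) := by
      intro i
      have e4 : ∑ k : AI β n, put i i (star (ut g k) * ut g k) =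
          ((c : ℝ) : ℂ) • put i i (1 : CStarMatrix β β B) := by
        have e5 : ∑ k : AI β n, put i i (star (ut g k) * ut g k) =
            put i i (∑ k : AI β n, star (ut g k) * ut g k) :=
          (map_sum (putHom (A := B) (β := β) i) (fun k : AI β n => star (ut g k) * ut g k)
            Finset.univ).symm
        rw [e5, sum_star_ut g hgp.1]
        exact map_smul (putHom (A := B) (β := β) i) ((c : ℝ) : ℂ) 1
      rw [← Finset.sum_mul, ← Finset.mul_sum, e4, mul_smul_comm, smul_mul_assoc]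
    rw [Finset.sum_congr rfl fun i _ => e3 i, ← Finset.smul_sum, ← Finset.sum_mul,
      ← Finset.mul_sum, sum_put_one, mul_one]
  have hcoln : ‖∑ q, star (x q) * x q‖ = c * ‖X‖ ^ 2 := by
    rw [hcol, norm_smul, Complex.norm_real, Real.norm_of_nonneg hc0.le,
      CStarRing.norm_star_mul_self, sq]
  have hroww : ∑ q, x q * star (x q) = put a0 a0 (∑ k : AI β n, ut g k * p * star (ut g k)) := by
    have e1 : ∀ q, x q * star (x q) = put a0 a0 (ut g q.2 *
        blk (X * star X) q.1 q.1 * star (ut g q.2)) := by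
      intro q
      rw [hx]
      simp only [star_mul, put_star]
      rw [← put_mul_mul_put]
      simp only [mul_assoc]
    simp only [e1]
    have e2 : ∀ f : α × AI β n → CStarMatrix β β B,
        ∑ q, put a0 a0 (f q) = put a0 a0 (∑ q, f q) := fun f =>
      (map_sum (putHom (A := B) (β := β) a0) f Finset.univ).symm
    rw [e2 (fun q => ut g q.2 * blk (X * star X) q.1 q.1 * star (ut g q.2))]
    congr 1
    rw [Fintype.sum_prod_type, Finset.sum_comm]
    refine Finset.sum_congr rfl fun k _ => ?_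
    rw [hp, Finset.mul_sum, Finset.sum_mul]
  have hrown : ‖∑ q, x q * star (x q)‖ ≤ c * (trX / l + ε) := by
    rw [hroww, norm_put]
    exact hsum
  -- little Grothendieck
  have hgt := h1 (CStarMatrix (α × β) (α × β) B) (HH β K) (rowMap w ξ a0) Mc hM0 hrowb
    (α × AI β n) x
  set R : ℝ := ‖X‖ ^ 2 + 1 / l * trX + ε with hR
  have hR0 : 0 ≤ R := by positivity
  have hgt2 : ∑ q, ‖rowMap w ξ a0 (x q)‖ ^ 2 ≤ 18 * γ ^ 2 * Q * (c * R) := by
    refine hgt.trans ?_
    rw [hM2, hcoln]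
    have h0 : 0 ≤ 3 * (6 * γ ^ 2 * Q) := by positivity
    calc 3 * (6 * γ ^ 2 * Q) * (c * ‖X‖ ^ 2 + ‖∑ q, x q * star (x q)‖)
        ≤ 3 * (6 * γ ^ 2 * Q) * (c * ‖X‖ ^ 2 + c * (trX / l + ε)) :=
          mul_le_mul_of_nonneg_left (by linarith) h0
      _ = _ := by rw [hR]; ring
  set ψ : HH (α × β) K := amp w (α × β) X ξ with hψ
  have hrm : ∀ (j : α) (k : AI β n), rowMap w ξ a0 (x (j, k)) =
      amp w β (ut g k) (sec j ψ) := by
    intro j k
    rw [rowMap_apply, hψ, sec_amp, map_sum]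
    refine Finset.sum_congr rfl fun j' _ => ?_
    rw [hx]
    simp only
    rw [blk_put_mul, hwb.mul]
    rfl
  -- the other side
  have hother : ∑ q : α × AI β n, ‖amp (vmap w) β (ut g q.2) (sec q.1 η)‖ ^ 2 ≤
      c * ((qa q₁ η η).re + (Fintype.card (α × β) : ℝ) * ε) := by
    rw [Fintype.sum_prod_type]
    have e1 : ∀ j : α, ∑ k : AI β n, ‖amp (vmap w) β (ut g k) (sec j η)‖ ^ 2 =
        c * ∑ b, (qf (vmap w) g (η (j, b)) (η (j, b))).re := by
      intro j
      rw [sum_amp_ut]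
      congr 1
      refine Finset.sum_congr rfl fun b _ => ?_
      rw [qf_re]
      rfl
    rw [Finset.sum_congr rfl fun j _ => e1 j, ← Finset.mul_sum]
    refine mul_le_mul_of_nonneg_left ?_ hc0.le
    rw [← Fintype.sum_prod_type (f := fun q : α × β => (qf (vmap w) g (η q) (η q)).re)]
    have e2 : (qa q₁ η η).re = ∑ q, (q₁ (η q) (η q)).re := by
      unfold qa
      rw [Complex.re_sum]
    rw [e2]
    have e3 : ∀ q : α × β, (qf (vmap w) g (η q) (η q)).re ≤ (q₁ (η q) (η q)).re + ε := by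
      intro q
      have h := hgq (η q) (Finset.mem_image_of_mem _ (Finset.mem_univ _)) (η q)
        (Finset.mem_image_of_mem _ (Finset.mem_univ _))
      have h2 := (Complex.re_le_norm _).trans h
      rw [Complex.sub_re] at h2
      linarith
    refine (Finset.sum_le_sum fun q _ => e3 q).trans (le_of_eq ?_)
    rw [Finset.sum_add_distrib, Finset.sum_const, Finset.card_univ, nsmul_eq_mul]
  -- duality
  have hpair : ((c : ℝ) : ℂ) * ⟪ψ, η⟫_ℂ = ∑ q : α × AI β n,
      ⟪rowMap w ξ a0 (x q), amp (vmap w) β (ut g q.2) (sec q.1 η)⟫_ℂ := by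
    have e1 : ⟪ψ, η⟫_ℂ = ∑ j, ⟪sec j ψ, sec j η⟫_ℂ := by
      rw [PiLp.inner_apply, Fintype.sum_prod_type]
      refine Finset.sum_congr rfl fun j _ => ?_
      rw [PiLp.inner_apply]
      rfl
    rw [e1, Finset.mul_sum, Fintype.sum_prod_type]
    refine Finset.sum_congr rfl fun j _ => ?_
    have e2 : ∀ k : AI β n, ⟪rowMap w ξ a0 (x (j, k)), amp (vmap w) β (ut g k) (sec j η)⟫_ℂ =
        ⟪amp w β (star (ut g k) * ut g k) (sec j ψ), sec j η⟫_ℂ := by
      intro k
      rw [hrm, (prove3_vmap.{0, 0} B K w).1 β (ut g k), ContinuousLinearMap.star_eq_adjoint,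
        ContinuousLinearMap.adjoint_inner_right, hwb.mul]
      rfl
    rw [Finset.sum_congr rfl fun k _ => e2 k, ← sum_inner]
    have e3 : ∑ k : AI β n, amp w β (star (ut g k) * ut g k) (sec j ψ) =
        ((c : ℝ) : ℂ) • sec j ψ := by
      have e4 : ∑ k : AI β n, amp w β (star (ut g k) * ut g k) (sec j ψ) =
          amp w β (∑ k : AI β n, star (ut g k) * ut g k) (sec j ψ) := by
        rw [map_sum]
        simp
      rw [e4, sum_star_ut g hgp.1, map_smul, hwb.one]
      rfl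
    rw [e3, inner_smul_left]
    simp
  have hcs : (c * ‖⟪ψ, η⟫_ℂ‖) ^ 2 ≤ (18 * γ ^ 2 * Q * (c * R)) *
      (c * ((qa q₁ η η).re + (Fintype.card (α × β) : ℝ) * ε)) := by
    have e1 : c * ‖⟪ψ, η⟫_ℂ‖ ≤ ∑ q : α × AI β n,
        ‖rowMap w ξ a0 (x q)‖ * ‖amp (vmap w) β (ut g q.2) (sec q.1 η)‖ := by
      have e2 : c * ‖⟪ψ, η⟫_ℂ‖ = ‖((c : ℝ) : ℂ) * ⟪ψ, η⟫_ℂ‖ := by
        rw [norm_mul, Complex.norm_real, Real.norm_of_nonneg hc0.le]
      rw [e2, hpair]
      exact (norm_sum_le _ _).trans (Finset.sum_le_sum fun q _ => norm_inner_le_norm _ _)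
    calc (c * ‖⟪ψ, η⟫_ℂ‖) ^ 2 ≤ (∑ q : α × AI β n,
          ‖rowMap w ξ a0 (x q)‖ * ‖amp (vmap w) β (ut g q.2) (sec q.1 η)‖) ^ 2 :=
          pow_le_pow_left₀ (by positivity) e1 2
      _ ≤ (∑ q : α × AI β n, ‖rowMap w ξ a0 (x q)‖ ^ 2) *
          ∑ q : α × AI β n, ‖amp (vmap w) β (ut g q.2) (sec q.1 η)‖ ^ 2 :=
          Finset.sum_mul_sq_le_sq_mul_sq _ _ _
      _ ≤ _ := mul_le_mul hgt2 hother (by positivity) (by positivity)
  have hfin : c ^ 2 * ‖⟪ψ, η⟫_ℂ‖ ^ 2 ≤ c ^ 2 * (18 * γ ^ 2 * R * Q *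
      ((qa q₁ η η).re + (Fintype.card (α × β) : ℝ) * ε)) := by
    calc c ^ 2 * ‖⟪ψ, η⟫_ℂ‖ ^ 2 = (c * ‖⟪ψ, η⟫_ℂ‖) ^ 2 := by ring
      _ ≤ _ := hcs
      _ = _ := by ring
  exact le_of_mul_le_mul_left hfin (by positivity)

theorem mid_prod (hrow : S_row) (h1 : St_gt.{0, 0}) (hτ : IsTracialState τ)
    {w : B →ₗ[ℂ] (K →L[ℂ] K)} (hw : IsHom w) {q₁ q₂ : Form K} {C : ℝ} (hq₂ : IsForm q₂ C)
    (hd1 : DixForm τ (vmap w) q₁) (hd2 : DixForm τ w q₂)
    (α β : Type) [Fintype α] [DecidableEq α] [Nonempty α] [Fintype β]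
    [DecidableEq β] [Nonempty β] (γ : ℝ) (hγ : 0 ≤ γ)
    (hamp : ∀ Y : CStarMatrix β β B, ‖amp w β Y‖ ≤ γ * ‖Y‖)
    (X : CStarMatrix (α × β) (α × β) B) (ξ η : HH (α × β) K) :
    ‖⟪amp w (α × β) X ξ, η⟫_ℂ‖ ^ 2 ≤
        18 * γ ^ 2 * (‖X‖ ^ 2 + 1 / (Fintype.card β : ℝ) *
          (tr τ (α × β) (star X * X)).re) *
          (qa q₂ ξ ξ).re * (qa q₁ η η).re := by
  have hlim : Tendsto (fun ε : ℝ => 18 * γ ^ 2 * (‖X‖ ^ 2 + 1 / (Fintype.card β : ℝ) *
          (tr τ (α × β) (star X * X)).re + ε) *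
          (qa q₂ ξ ξ).re * ((qa q₁ η η).re + (Fintype.card (α × β) : ℝ) * ε))
      (𝓝[>] 0) (𝓝 (18 * γ ^ 2 * (‖X‖ ^ 2 + 1 / (Fintype.card β : ℝ) *
          (tr τ (α × β) (star X * X)).re + 0) *
          (qa q₂ ξ ξ).re * ((qa q₁ η η).re + (Fintype.card (α × β) : ℝ) * 0))) := by
    refine (Continuous.tendsto ?_ 0).mono_left nhdsWithin_le_nhds
    fun_prop
  rw [add_zero, mul_zero, add_zero] at hlim
  refine ge_of_tendsto hlim ?_
  filter_upwards [self_mem_nhdsWithin] with ε hε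
  exact mid_stage hrow h1 hτ hw hq₂ hd1 hd2 α β γ hγ hamp X ξ η ε hε

end main

end Y333.D3
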