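import Mathlib
import Pool.Agent.Y333.D3.MidP
import Pool.Agent.H862R2.Kad.Embed
import Pool.Agent.H143R2.Kad.Trunc
import Pool.Agent.H747R2.Kad.Fourth
import Pool.Agent.H873R2.Kad.GT
import Pool.Agent.H880R2.Kad.GtSa

/-!
Job 5504 (D3-MID): the bilinear block inequality.
-/

set_option autoImplicit false

open scoped ComplexOrder InnerProductSpace ComplexConjugate Topology
open Finset Filter

noncomputable section

namespace Y333.D3

open H759R2.Kad H711R2.KG Y268.D3 Embed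

section ex

variable {ι κ : Type} [Fintype ι] [DecidableEq ι] [Fintype κ] [DecidableEq κ]
  {K : Type} [NormedAddCommGroup K] [InnerProductSpace ℂ K] [CompleteSpace K]

omit [CompleteSpace K] in
theorem exv_inner (e : ι ↪ κ) (ξ η : HH ι K) : ⟪exv e ξ, exv e η⟫_ℂ = ⟪ξ, η⟫_ℂ := by
  rw [PiLp.inner_apply, PiLp.inner_apply]
  symm
  refine Fintype.sum_of_injective e e.injective _ _ (fun i hi => ?_) (fun i => ?_)
  · rw [exv_out e ξ i hi, inner_zero_left]
  · rw [exv_apply, exv_apply]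

omit [CompleteSpace K] in
theorem qa_ex {q : Form K} {C : ℝ} (hq : IsForm q C) (e : ι ↪ κ) (ξ : HH ι K) :
    qa q (exv e ξ) (exv e ξ) = qa q ξ ξ := by
  unfold qa
  symm
  refine Fintype.sum_of_injective e e.injective _ _ (fun i hi => ?_) (fun i => ?_)
  · rw [exv_out e ξ i hi]
    have h := hq.smul 0 0 0
    rw [zero_smul, zero_mul] at h
    exact h
  · rw [exv_apply]

omit [CompleteSpace K] [DecidableEq ι] in
theorem qa_pos {q : Form K} {C : ℝ} (hq : IsForm q C) (ξ : HH ι K) : 0 ≤ (qa q ξ ξ).re := by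
  unfold qa
  rw [Complex.re_sum]
  exact Finset.sum_nonneg fun p _ => hq.pos _

end ex

/-- The bilinear block inequality. -/
theorem prove_mid (hrow : S_row) : S_mid := by
  intro B _ _ _ τ hτ K _ _ _ w hw q₁ q₂ C hq₁ hq₂ hd1 hd2 m L hm hL γ hγ hlvl X ξ η
  have : Nonempty (Fin m) := ⟨⟨0, hm⟩⟩
  have : Nonempty (Fin L) := ⟨⟨0, hL⟩⟩
  have hgt : St_gt.{0, 0} := prove_gt (prove_gtsa prove_fourth prove_trunc)
  let e : Fin (m * L) ↪ Fin m × Fin L := finProdFinEquiv.symm.toEmbedding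
  have key := mid_prod hrow hgt hτ hw hq₂ hd1 hd2 (Fin m) (Fin L) γ hγ hlvl (exH e X)
    (exv e ξ) (exv e η)
  rw [amp_ex, ← map_star, ← map_mul, tr_ex, Fintype.card_fin, exv_inner, qa_ex hq₂,
    qa_ex hq₁] at key
  refine key.trans ?_
  have hn : ‖exH e X‖ ≤ ‖X‖ := NonUnitalStarAlgHom.norm_apply_le (exH e) X
  have hn2 : ‖exH e X‖ ^ 2 ≤ ‖X‖ ^ 2 := pow_le_pow_left₀ (norm_nonneg _) hn 2
  refine mul_le_mul_of_nonneg_right (mul_le_mul_of_nonneg_right ?_ (qa_pos hq₂ ξ)) (qa_pos hq₁ η)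
  refine mul_le_mul_of_nonneg_left ?_ (by positivity)
  linarith

end Y333.D3
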